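import Pool.Agent.AEC.StmtsS

set_option autoImplicit false

open FirstOrder FirstOrder.Language Cardinal Set

universe u

namespace Pool.Agent.AEC.H44

open Pool.Agent.AEC Pool.Agent.AEC.S

section

variable {L : FirstOrder.Language.{u, u}} [L.IsRelational] {κ : Cardinal.{u}}

theorem cat_step (hP : ParStmt.{u}) (hA : AsmStmt.{u}) {K : AEC L κ} {τ : Tpl L κ}
    {l : Cardinal.{u}} (h : HL K τ l) {M N : K.Mod} (f : K.Hom M N) {T : Type u}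
    (φ : W τ T ≃[L] M.α) (hl : l ≤ #M.α) :
    ∃ (T' : Type u) (j : T ↪ T') (φ' : W τ T' ≃[L] N.α), ∀ x, φ' (W.fn j x) = f (φ x) :=
  hA L κ τ T M.α N.α f.toEmb φ (hP L κ K τ l h M N f T φ hl)

theorem cat_mem {K : AEC L κ} {τ : Tpl L κ} (h : τ.OK K) (T : Type u) (hT : κ ≤ #T) :
    K.mem (W τ T) :=
  K.dom (h T T (Function.Embedding.refl T) hT)

theorem cat_rep (hP : ParStmt.{u}) (hA : AsmStmt.{u}) (hT : TypStmt.{u}) {K : AEC L κ}
    {τ : Tpl L κ} {l : Cardinal.{u}} (h : HL K τ l) (Q : K.Mod) (hQ : l ≤ #Q.α) :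
    ∃ T : Type u, #T = #Q.α ∧ Nonempty (W τ T ≃[L] Q.α) := by
  have hκl : κ < l := Order.succ_le_iff.1 h.2.1
  have hκ : ℵ₀ ≤ κ := K.aleph0_le
  obtain ⟨A, hAc⟩ := Cardinal.le_mk_iff_exists_set.1 hQ
  obtain ⟨S, hAS, hS, hc⟩ := K.ls Q.prop A
  have hSl : #S = l := by
    apply le_antisymm
    · refine hc.trans ?_
      rw [hAc, Cardinal.add_eq_left (hκ.trans hκl.le) hκl.le]
    · rw [← hAc]
      exact Cardinal.mk_le_mk_of_subset hAS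
  obtain ⟨φ⟩ := (hT L κ K τ h.1).2 l hκl h.2.2 (AEC.sub Q S hS) l.out hSl (Cardinal.mk_out l)
  obtain ⟨T', j, φ', hφ'⟩ := cat_step hP hA h (AEC.subHom Q S hS) φ (le_of_eq hSl.symm)
  have hT' : l ≤ #T' := by
    have := Cardinal.mk_le_of_injective j.injective
    rwa [Cardinal.mk_out] at this
  refine ⟨T', ?_, ⟨φ'⟩⟩
  rw [← (hT L κ K τ h.1).1 T' (hκl.trans_le hT')]
  exact Cardinal.mk_congr φ'.toEquiv

end

/-- the two injections of the pushout of two injections -/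
theorem cat_push {T T₁ T₂ : Type u} (j₁ : T ↪ T₁) (j₂ : T ↪ T₂) :
    ∃ (Z : Type u) (k₁ : T₁ ↪ Z) (k₂ : T₂ ↪ Z), ∀ t, k₁ (j₁ t) = k₂ (j₂ t) := by
  classical
  let k₂ : T₂ → T₁ ⊕ {t : T₂ // t ∉ Set.range j₂} := fun t =>
    if h : t ∈ Set.range j₂ then Sum.inl (j₁ h.choose) else Sum.inr ⟨t, h⟩
  have hk : Function.Injective k₂ := by
    intro s t hst
    by_cases hs : s ∈ Set.range j₂
    · by_cases ht : t ∈ Set.range j₂
      · have h1 : Sum.inl (j₁ hs.choose) = (Sum.inl (j₁ ht.choose) :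
            T₁ ⊕ {t : T₂ // t ∉ Set.range j₂}) := by
          have := hst
          simp only [k₂, dif_pos hs, dif_pos ht] at this
          exact this
        have h2 := j₁.injective (Sum.inl_injective h1)
        rw [← hs.choose_spec, ← ht.choose_spec, h2]
      · exfalso
        simp only [k₂, dif_pos hs, dif_neg ht] at hst
        cases hst
    · by_cases ht : t ∈ Set.range j₂
      · exfalso
        simp only [k₂, dif_neg hs, dif_pos ht] at hst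
        cases hst
      · simp only [k₂, dif_neg hs, dif_neg ht] at hst
        exact congrArg Subtype.val (Sum.inr_injective hst)
  refine ⟨T₁ ⊕ {t : T₂ // t ∉ Set.range j₂}, ⟨Sum.inl, Sum.inl_injective⟩, ⟨k₂, hk⟩, fun t => ?_⟩
  have ht : j₂ t ∈ Set.range j₂ := ⟨t, rfl⟩
  change Sum.inl (j₁ t) = k₂ (j₂ t)
  simp only [k₂, dif_pos ht]
  have : ht.choose = t := j₂.injective ht.choose_spec
  rw [this]

theorem s_cat (hP : ParStmt.{u}) (hA : AsmStmt.{u}) (hT : TypStmt.{u}) : CatStmt.{u} := by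
  intro L _ κ K τ l h χ hχ
  have hκl : κ < l := Order.succ_le_iff.1 h.2.1
  have hκ : ℵ₀ ≤ κ := K.aleph0_le
  have hκχ : κ < χ := hκl.trans_le hχ
  refine ⟨⟨?_, ?_⟩, ?_⟩
  · refine ⟨⟨W τ χ.out, cat_mem h.1 _ (by rw [Cardinal.mk_out]; exact hκχ.le)⟩, ?_⟩
    change #(W τ χ.out) = χ
    rw [(hT L κ K τ h.1).1 χ.out (by rw [Cardinal.mk_out]; exact hκχ), Cardinal.mk_out]
  · intro M N hM hN
    obtain ⟨T, hTc, ⟨φ⟩⟩ := cat_rep hP hA hT h M (by rw [hM]; exact hχ)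
    obtain ⟨T', hTc', ⟨φ'⟩⟩ := cat_rep hP hA hT h N (by rw [hN]; exact hχ)
    obtain ⟨e⟩ := Cardinal.eq.1 (hTc.trans (hM.trans (hN.symm.trans hTc'.symm)))
    exact ⟨(φ'.comp (W.eqv e)).comp φ.symm⟩
  · intro M₀ M₁ M₂ f₁ f₂ h₀ h₁ h₂
    obtain ⟨T, hTc, ⟨φ⟩⟩ := cat_rep hP hA hT h M₀ (by rw [h₀]; exact hχ)
    obtain ⟨T₁, j₁, φ₁, hφ₁⟩ := cat_step hP hA h f₁ φ (by rw [h₀]; exact hχ)
    obtain ⟨T₂, j₂, φ₂, hφ₂⟩ := cat_step hP hA h f₂ φ (by rw [h₀]; exact hχ)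
    obtain ⟨Z, k₁, k₂, hk⟩ := cat_push j₁ j₂
    have hT0 : κ ≤ #T := by rw [hTc, h₀]; exact hκχ.le
    have hT1 : κ ≤ #T₁ := hT0.trans (Cardinal.mk_le_of_injective j₁.injective)
    have hT2 : κ ≤ #T₂ := hT0.trans (Cardinal.mk_le_of_injective j₂.injective)
    have hZ : κ ≤ #Z := hT1.trans (Cardinal.mk_le_of_injective k₁.injective)
    let N : K.Mod := ⟨W τ Z, cat_mem h.1 Z hZ⟩
    let N₁ : K.Mod := ⟨W τ T₁, cat_mem h.1 T₁ hT1⟩
    let N₂ : K.Mod := ⟨W τ T₂, cat_mem h.1 T₂ hT2⟩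
    let e₁ : K.Hom N₁ N := ⟨W.emb k₁, h.1 T₁ Z k₁ hT1⟩
    let e₂ : K.Hom N₂ N := ⟨W.emb k₂, h.1 T₂ Z k₂ hT2⟩
    let d₁ : K.Hom M₁ N₁ := AEC.Hom.ofEquiv φ₁.symm
    let d₂ : K.Hom M₂ N₂ := AEC.Hom.ofEquiv φ₂.symm
    refine ⟨N, e₁.comp d₁, e₂.comp d₂, fun x => ?_⟩
    have hx : φ (φ.symm x) = x := φ.apply_symm_apply x
    have q₁ : d₁ (f₁ x) = W.fn j₁ (φ.symm x) := by
      have := hφ₁ (φ.symm x)
      rw [hx] at this
      rw [← this]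
      exact φ₁.symm_apply_apply _
    have q₂ : d₂ (f₂ x) = W.fn j₂ (φ.symm x) := by
      have := hφ₂ (φ.symm x)
      rw [hx] at this
      rw [← this]
      exact φ₂.symm_apply_apply _
    rw [AEC.Hom.comp_apply, AEC.Hom.comp_apply, q₁, q₂]
    change W.fn k₁ (W.fn j₁ (φ.symm x)) = W.fn k₂ (W.fn j₂ (φ.symm x))
    rw [W.fn_fn, W.fn_fn]
    have : (k₁ ∘ j₁ : T → Z) = k₂ ∘ j₂ := funext hk
    rw [this]

end Pool.Agent.AEC.H44
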