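import Pool.Agent.AEC.StmtsS

set_option autoImplicit false

open FirstOrder FirstOrder.Language Cardinal Set

universe u

namespace Pool.Agent.AEC.H44

open Pool.Agent.AEC Pool.Agent.AEC.S

theorem frz_wf : WellFoundedLT (ULift.{u} ℕ) :=
  ⟨InvImage.wf (fun x : ULift.{u} ℕ => x.down) wellFounded_lt⟩

theorem s_frz (h₁ : Fr1Stmt.{u}) (h₂ : FrmStmt.{u}) (h₃ : SvcStmt.{u}) (h₄ : AutStmt.{u})
    (h₅ : TrcStmt.{u}) (h₆ : DlmStmt.{u}) (h₇ : CclStmt.{u}) : FrzStmt.{u} := by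
  intro L _ κ K τ l h M N f x hM hN hx
  have hκl : κ < l := Order.succ_le_iff.1 h.2.1
  have hκ : ℵ₀ ≤ κ := K.aleph0_le
  have hl : ℵ₀ ≤ l := hκ.trans hκl.le
  obtain ⟨hmono, hinv, -⟩ := h₂ L κ K τ l h
  have hccl := (h₇ L κ K l hl).2
  haveI := frz_wf.{u}
  have hJc : #(ULift.{u} ℕ) ≤ l := by
    have : #(ULift.{u} ℕ) = ℵ₀ := by simp
    rw [this]
    exact hl
  haveI hnm : NoMaxOrder (ULift.{u} ℕ) :=
    ⟨fun a => ⟨⟨a.down + 1⟩, Nat.lt_succ_self a.down⟩⟩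
  have hcov : ∀ i : ULift.{u} ℕ, i ⋖ (⟨i.down + 1⟩ : ULift.{u} ℕ) := by
    intro i
    refine ⟨Nat.lt_succ_self i.down, fun c hc hc' => ?_⟩
    have h1 : i.down < c.down := hc
    have h2 : c.down < i.down + 1 := hc'
    omega
  obtain ⟨F, m, b, hid, hcomp, -, hQ, hR⟩ := h₅ L κ K M (fun A => #A.α = l)
    (fun A B _ g => ∀ x : A.α, x ∉ Sv L κ A.α → g x ∈ Fr l B) (ULift.{u} ℕ) l
    (fun j => (Cardinal.mk_set_le _).trans hJc) hccl hM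
    (fun A _ hA => by
      obtain ⟨B, g, hB, hg⟩ := h₁ L κ K τ l h A hA
      exact ⟨B, g, hB, hg⟩)
  obtain ⟨G, s, hs, hcov'⟩ := h₆ L κ K (ULift.{u} ℕ) F m hid hcomp
  have hG : #G.α = l := hccl (ULift.{u} ℕ) hJc F m G s hs hcov' hQ
  have hGF : ∀ y : G.α, y ∉ Sv L κ G.α → y ∈ Fr l G := by
    intro y hy
    obtain ⟨i, z, rfl⟩ := hcov' y
    have hz : z ∉ Sv L κ (F i).α := by
      intro hz
      apply hy
      rw [h₃ L κ K τ l h (F i) G (s i) (hQ i) hG]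
      exact ⟨z, hz, rfl⟩
    have h3 := hR i _ (hcov i) z hz
    have h4 := hmono _ G (s (⟨i.down + 1⟩ : ULift.{u} ℕ)) (hQ _) hG
    have h5 := h4 ⟨_, h3, rfl⟩
    rw [hs] at h5
    exact h5
  obtain ⟨e⟩ := h.2.2.2 G M hG hM
  have hxM : x ∈ Fr l M := by
    rw [← hinv G M e hG]
    refine ⟨e.symm x, hGF _ ?_, e.apply_symm_apply x⟩
    intro hc
    apply hx
    rw [← (h₄ L κ G.α M.α e).2.1]
    exact ⟨_, hc, e.apply_symm_apply x⟩
  exact hxM.2 N f hN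

end Pool.Agent.AEC.H44
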