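import Pool.Agent.AEC.StmtsZ

/-!
# Squad AEC, row ZLA (helper44): Theorem Z, density of amalgamation bases
-/

open FirstOrder FirstOrder.Language Cardinal Set

universe u

namespace Pool.Agent.AEC.H44

theorem zla (hT : ZtgStmt.{u}) (hS : SzpStmt.{u}) (hM : MxbStmt.{u}) : ZlaStmt.{u} := by
  intro L κ K M l hκ hl h2 hc
  by_contra hcon
  have hcon' : ∀ (N : K.Mod) (_ : K.Hom M N), #N.α < l → AEC.IsBase N →
      ¬ (AEC.IsMax N ∨ (2 : Cardinal.{u}) ^ #N.α = 2 ^ #M.α) :=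
    fun N h h1 h3 h4 => hcon ⟨N, h, h1, h3, h4⟩
  have hne : {θ : Cardinal.{u} | (2 : Cardinal.{u}) ^ #M.α < 2 ^ θ}.Nonempty := ⟨l, h2⟩
  obtain ⟨θ, hθ, hθl, hmin⟩ : ∃ θ : Cardinal.{u}, (2 : Cardinal.{u}) ^ #M.α < 2 ^ θ ∧ θ ≤ l ∧
      ∀ μ < θ, (2 : Cardinal.{u}) ^ μ ≤ 2 ^ #M.α := by
    refine ⟨sInf {θ : Cardinal.{u} | (2 : Cardinal.{u}) ^ #M.α < 2 ^ θ}, csInf_mem hne,
      csInf_le' h2, fun μ hμ => ?_⟩
    by_contra h
    exact notMem_of_lt_csInf' hμ (not_le.1 h)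
  have hMθ : #M.α < θ := by
    by_contra h
    exact absurd hθ (not_lt.2 (Cardinal.power_le_power_left two_ne_zero (not_lt.1 h)))
  have hinf : ℵ₀ ≤ #M.α := K.aleph0_le.trans hκ
  have hlinf : ℵ₀ ≤ l := hinf.trans (hMθ.le.trans hθl)
  obtain ⟨T, hTl⟩ := hc.1
  have hemb : ∀ (N : K.Mod) (_ : K.Hom M N), #N.α ≤ θ → Nonempty (K.Hom N T) := by
    intro N h hN
    have h1 : #N.α + κ ≤ l :=
      Cardinal.add_le_of_le hlinf (hN.trans hθl) (hκ.trans (hMθ.le.trans hθl))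
    obtain ⟨N', h', hN'⟩ := hS L κ K N l h1 (fun N' h' hN' hmax =>
      hcon' N' (h'.comp h) hN' (hM L κ K N' hmax) (Or.inl hmax))
    obtain ⟨e⟩ := hc.2 N' T hN' hTl
    exact ⟨(AEC.Hom.ofEquiv e).comp h'⟩
  obtain ⟨N, h, hN, hb⟩ := hT L κ K M T θ hinf hθ hmin (hTl ▸ hl) hemb
  refine hcon' N h (hN.trans_le hθl) hb (Or.inr (le_antisymm (hmin _ hN) ?_))
  exact Cardinal.power_le_power_left two_ne_zero (Cardinal.mk_le_of_injective h.injective)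

end Pool.Agent.AEC.H44
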